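import Mathlib

/-!
# MP_43be50_gt: Z-versions versus classical topologies on C(Y,Z)
-/

set_option autoImplicit false

open Set Topology TopologicalSpace Filter

universe u v

namespace Pool.Agent.Results.MP_43be50_gt.AllThreeDiffer

section defs

variable (Y : Type u) (Z : Type v) [TopologicalSpace Y] [TopologicalSpace Z]

/-- `𝒪_Z(Y)`: the preimages of open subsets of `Z` under continuous maps `Y → Z` -/
def OZ : Set (Opens Y) := {W | ∃ (f : C(Y, Z)) (U : Opens Z), W = Opens.comap f U}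

/-- the topology `τ_Y^Z` on `Y` with subbasis `𝒪_Z(Y)` -/
def tauZ : TopologicalSpace Y := generateFrom {W | ∃ W' ∈ OZ Y Z, W = (W' : Set Y)}

/-- `Z`-compact subsets of `Y` -/
def ZCompact (K : Set Y) : Prop := @IsCompact Y (tauZ Y Z) K

/-- the compact-open topology `t_co` -/
def tco : TopologicalSpace C(Y, Z) :=
  generateFrom {S | ∃ (K : Set Y) (U : Opens Z), IsCompact K ∧ S = {f : C(Y, Z) | ⇑f '' K ⊆ (U : Set Z)}}

/-- the topology `t_co^Z` -/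
def tcoZ : TopologicalSpace C(Y, Z) :=
  generateFrom {S | ∃ (K : Set Y) (U : Opens Z), ZCompact Y Z K ∧ S = {f : C(Y, Z) | ⇑f '' K ⊆ (U : Set Z)}}

/-- `ℍ` is open in the Scott topology `Ω(Y)` -/
def Scott (ℍ : Set (Opens Y)) : Prop :=
  (∀ W ∈ ℍ, ∀ V, W ≤ V → V ∈ ℍ) ∧
  ∀ 𝒟 : Set (Opens Y), sSup 𝒟 ∈ ℍ → ∃ ℱ ⊆ 𝒟, ℱ.Finite ∧ sSup ℱ ∈ ℍ

/-- `ℍ` is open in the strong Scott topology `Ω₁(Y)` -/
def StrongScott (ℍ : Set (Opens Y)) : Prop :=
  (∀ W ∈ ℍ, ∀ V, W ≤ V → V ∈ ℍ) ∧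
  ∀ 𝒟 : Set (Opens Y), sSup 𝒟 = ⊤ → ∃ ℱ ⊆ 𝒟, ℱ.Finite ∧ sSup ℱ ∈ ℍ

/-- `ℍ` is open in `τ₁^Z` -/
def Tau1Z (ℍ : Set (Opens Y)) : Prop :=
  (∀ W ∈ ℍ, W ∈ OZ Y Z → ∀ V, W ≤ V → V ∈ ℍ) ∧
  ∀ 𝒟 ⊆ OZ Y Z, sSup 𝒟 ∈ ℍ → ∃ ℱ ⊆ 𝒟, ℱ.Finite ∧ sSup ℱ ∈ ℍ

/-- `ℍ` is open in `τ_{1,s}^Z` -/
def Tau1sZ (ℍ : Set (Opens Y)) : Prop :=
  (∀ W ∈ ℍ, W ∈ OZ Y Z → ∀ V, W ≤ V → V ∈ ℍ) ∧
  ∀ 𝒟 ⊆ OZ Y Z, sSup 𝒟 = ⊤ → ∃ ℱ ⊆ 𝒟, ℱ.Finite ∧ sSup ℱ ∈ ℍ

/-- the topology on `C(Y,Z)` with subbasis all `(ℍ, U) = {f | f⁻¹(U) ∈ ℍ}`, `U` open in `Z`, where `ℍ`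
runs through the families with property `P` -/
def genTop (P : Set (Opens Y) → Prop) : TopologicalSpace C(Y, Z) :=
  generateFrom {S | ∃ (ℍ : Set (Opens Y)) (U : Opens Z), P ℍ ∧ S = {f | Opens.comap f U ∈ ℍ}}

/-- the Isbell topology `t_Is` -/
def tIs : TopologicalSpace C(Y, Z) := genTop Y Z (Scott Y)

/-- the strong Isbell topology `t_sIs` -/
def tsIs : TopologicalSpace C(Y, Z) := genTop Y Z (StrongScott Y)

/-- the topology `t_1^Z` -/
def t1Z : TopologicalSpace C(Y, Z) := genTop Y Z (Tau1Z Y Z)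

/-- the topology `t_{1,s}^Z` -/
def t1sZ : TopologicalSpace C(Y, Z) := genTop Y Z (Tau1sZ Y Z)

end defs

section general

variable {Y : Type u} {Z : Type v} [TopologicalSpace Y] [TopologicalSpace Z]

theorem isOpen_tsIs_of_tIs {S : Set C(Y, Z)} (h : IsOpen[tIs Y Z] S) : IsOpen[tsIs Y Z] S := by
  have hle : tsIs Y Z ≤ tIs Y Z := by
    refine le_generateFrom ?_
    rintro _ ⟨ℍ, U, hℍ, rfl⟩
    rcases ℍ.eq_empty_or_nonempty with rfl | ⟨W, hW⟩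
    · have : {f : C(Y, Z) | Opens.comap f U ∈ (∅ : Set (Opens Y))} = ∅ := by ext; simp
      rw [this]
      exact @isOpen_empty _ (tsIs Y Z)
    · refine isOpen_generateFrom_of_mem ⟨ℍ, U, ⟨hℍ.1, fun 𝒟 h𝒟 => hℍ.2 𝒟 ?_⟩, rfl⟩
      rw [h𝒟]
      exact hℍ.1 W hW ⊤ le_top
  exact hle S h

theorem isOpen_tsIs_of_tco {S : Set C(Y, Z)} (h : IsOpen[tco Y Z] S) : IsOpen[tsIs Y Z] S := by
  have hle : tsIs Y Z ≤ tco Y Z := by
    refine le_generateFrom ?_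
    rintro _ ⟨K, U, hK, rfl⟩
    refine isOpen_generateFrom_of_mem ⟨{W | K ⊆ (W : Set Y)}, U, ⟨fun W hW V hWV x hx => hWV (hW hx), fun 𝒟 h𝒟 => ?_⟩, ?_⟩
    · have hcov : K ⊆ ⋃ d : 𝒟, (d.1 : Set Y) := by
        intro x _
        have hx : x ∈ sSup 𝒟 := by rw [h𝒟]; trivial
        rw [Opens.mem_sSup] at hx
        obtain ⟨d, hd, hxd⟩ := hx
        exact mem_iUnion.mpr ⟨⟨d, hd⟩, hxd⟩
      obtain ⟨t, ht⟩ := hK.elim_finite_subcover (fun d : 𝒟 => (d.1 : Set Y)) (fun d => d.1.isOpen) hcov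
      refine ⟨Subtype.val '' (t : Set 𝒟), ?_, t.finite_toSet.image _, ?_⟩
      · rintro _ ⟨d, -, rfl⟩; exact d.2
      · intro x hx
        obtain ⟨d, hd, hxd⟩ := mem_iUnion₂.mp (ht hx)
        exact Opens.mem_sSup.mpr ⟨d.1, ⟨d, hd, rfl⟩, hxd⟩
    · ext f
      simp only [mem_ofPred_eq, image_subset_iff]
      rfl
  exact hle S h

/-- a space with a point all of whose neighbourhoods are cofinite is compact -/
theorem compact_aux {Y : Type u} (t : TopologicalSpace Y) (y₀ : Y)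
    (h : ∀ W, IsOpen[t] W → y₀ ∈ W → Wᶜ.Finite) : @IsCompact Y t univ := by
  refine isCompact_of_finite_subcover fun {ι} U hU hcov => ?_
  obtain ⟨i₀, hi₀⟩ := mem_iUnion.mp (hcov (mem_univ y₀))
  have hfin := h _ (hU i₀) hi₀
  choose j hj using fun y => mem_iUnion.mp (hcov (mem_univ y))
  classical
  refine ⟨insert i₀ (hfin.toFinset.image j), fun y _ => ?_⟩
  by_cases hy : y ∈ U i₀
  · exact mem_iUnion₂.mpr ⟨i₀, Finset.mem_insert_self _ _, hy⟩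
  · exact mem_iUnion₂.mpr ⟨j y, Finset.mem_insert_of_mem (Finset.mem_image.mpr ⟨y, by simpa using hy, rfl⟩), hj y⟩

end general

/-- the point set of the space `Y`: the natural numbers and the sets which do not belong to a fixed free
ultrafilter -/
def YY : Type := ℕ ⊕ {J : Set ℕ // J ∉ (hyperfilter ℕ : Filter ℕ)}

/-- the topology: the natural numbers are isolated, a neighbourhood of `J` contains all `J' ⊆ J` and all but
finitely many elements of `J` -/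
instance : TopologicalSpace YY where
  IsOpen W := ∀ J, Sum.inr J ∈ W → (∀ J', J'.1 ⊆ J.1 → Sum.inr J' ∈ W) ∧ {n ∈ J.1 | Sum.inl n ∉ W}.Finite
  isOpen_univ := fun J _ => ⟨fun _ _ => mem_univ _, by
    convert finite_empty
    ext n
    simp only [mem_ofPred_eq, mem_empty_iff_false, iff_false, not_and, not_not]
    exact fun _ => mem_univ _⟩
  isOpen_inter := by
    intro W V hW hV J hJ
    refine ⟨fun J' hJ' => ⟨(hW J hJ.1).1 J' hJ', (hV J hJ.2).1 J' hJ'⟩, ?_⟩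
    refine ((hW J hJ.1).2.union (hV J hJ.2).2).subset ?_
    rintro n ⟨hn, hnWV⟩
    by_cases h : Sum.inl n ∈ W
    · exact Or.inr ⟨hn, fun h' => hnWV ⟨h, h'⟩⟩
    · exact Or.inl ⟨hn, h⟩
  isOpen_sUnion := by
    rintro S hS J ⟨W, hW, hJ⟩
    refine ⟨fun J' hJ' => ⟨W, hW, (hS W hW J hJ).1 J' hJ'⟩, ?_⟩
    refine ((hS W hW J hJ).2).subset ?_
    rintro n ⟨hn, hnS⟩
    exact ⟨hn, fun h => hnS ⟨W, hW, h⟩⟩

theorem isOpen_YY {W : Set YY} : IsOpen W ↔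
    ∀ J, Sum.inr J ∈ W → (∀ J', J'.1 ⊆ J.1 → Sum.inr J' ∈ W) ∧ {n ∈ J.1 | Sum.inl n ∉ W}.Finite := Iff.rfl

/-- the point `∅` -/
def y0 : YY := Sum.inr ⟨∅, Filter.empty_notMem _⟩

theorem const_on_inr (f : C(YY, Bool)) (J) : f (Sum.inr J) = f y0 := by
  have ho : IsOpen (f ⁻¹' {f (Sum.inr J)}) := (isOpen_discrete _).preimage f.continuous
  have h1 := (isOpen_YY.mp ho J rfl).1 ⟨∅, Filter.empty_notMem _⟩ (empty_subset _)
  exact h1.symm

theorem exists_infinite_subset {C : Set ℕ} (hC : C.Infinite) : ∃ D ⊆ C, D.Infinite ∧ D ∉ (hyperfilter ℕ : Filter ℕ) := by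
  obtain ⟨t, u, htu, hd, hcard⟩ := hC.exists_union_disjoint_cardinal_eq_of_infinite
  have ht : t.Infinite := by
    by_contra ht
    rw [not_infinite] at ht
    have hu : u.Finite := by
      have : Cardinal.mk u < Cardinal.aleph0 := by
        rw [← hcard]; exact Cardinal.lt_aleph0_iff_set_finite.mpr ht
      exact Cardinal.lt_aleph0_iff_set_finite.mp this
    exact hC (htu ▸ ht.union hu)
  have hu : u.Infinite := by
    by_contra hu
    rw [not_infinite] at hu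
    have : Cardinal.mk t < Cardinal.aleph0 := by
      rw [hcard]; exact Cardinal.lt_aleph0_iff_set_finite.mpr hu
    exact ht (Cardinal.lt_aleph0_iff_set_finite.mp this)
  by_cases h : t ∈ (hyperfilter ℕ : Filter ℕ)
  · refine ⟨u, htu ▸ subset_union_right, hu, fun hu' => ?_⟩
    have := Filter.inter_mem h hu'
    rw [hd.inter_eq] at this
    exact Filter.empty_notMem _ this
  · exact ⟨t, htu ▸ subset_union_left, ht, h⟩

theorem finite_ne (f : C(YY, Bool)) : {n : ℕ | f (Sum.inl n) ≠ f y0}.Finite := by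
  by_contra hcon
  obtain ⟨D, hDC, hD, hDu⟩ := exists_infinite_subset (show {n : ℕ | f (Sum.inl n) ≠ f y0}.Infinite from hcon)
  have ho : IsOpen (f ⁻¹' {f y0}) := (isOpen_discrete _).preimage f.continuous
  have h1 := (isOpen_YY.mp ho ⟨D, hDu⟩ (const_on_inr f ⟨D, hDu⟩)).2
  refine hD (h1.subset fun n hn => ⟨hn, fun h => ?_⟩)
  exact hDC hn h

theorem compl_finite {W : Set YY} (hW : IsOpen[tauZ YY Bool] W) : y0 ∈ W →
    (∀ J, Sum.inr J ∈ W) ∧ {n : ℕ | Sum.inl n ∉ W}.Finite := by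
  induction hW with
  | basic S hS =>
    obtain ⟨_, ⟨f, U, rfl⟩, rfl⟩ := hS
    intro h0
    have h0' : f y0 ∈ U := h0
    refine ⟨fun J => ?_, (finite_ne f).subset fun n hn h => hn ?_⟩
    · change f (Sum.inr J) ∈ U
      rw [const_on_inr]; exact h0'
    · change f (Sum.inl n) ∈ U
      rw [h]; exact h0'
  | univ =>
    refine fun _ => ⟨fun _ => mem_univ _, ?_⟩
    convert finite_empty
    ext n
    simp only [mem_ofPred_eq, mem_empty_iff_false, iff_false, not_not]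
    exact mem_univ _
  | inter S T _ _ h1 h2 =>
    intro h0
    refine ⟨fun J => ⟨(h1 h0.1).1 J, (h2 h0.2).1 J⟩, ((h1 h0.1).2.union (h2 h0.2).2).subset ?_⟩
    intro n hn
    by_cases h : Sum.inl n ∈ S
    · exact Or.inr fun h' => hn ⟨h, h'⟩
    · exact Or.inl h
  | sUnion 𝒮 _ h =>
    rintro ⟨S, hS, h0⟩
    exact ⟨fun J => ⟨S, hS, (h S hS h0).1 J⟩, (h S hS h0).2.subset fun n hn h' => hn ⟨S, hS, h'⟩⟩

theorem zcompact_univ : ZCompact YY Bool univ := by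
  refine compact_aux _ y0 fun W hW h0 => ?_
  obtain ⟨h1, h2⟩ := compl_finite hW h0
  refine (h2.image Sum.inl).subset ?_
  rintro (n | J) hx
  · exact ⟨n, hx, rfl⟩
  · exact absurd (h1 J) hx

/-- the constant function -/
def zero : C(YY, Bool) := ContinuousMap.const YY false

theorem eq_zero_iff (f : C(YY, Bool)) : f = zero ↔ Opens.comap f ⟨{false}, isOpen_discrete _⟩ = ⊤ := by
  constructor
  · rintro rfl
    ext y
    exact ⟨fun _ => trivial, fun _ => rfl⟩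
  · intro h
    ext1 y
    have : y ∈ Opens.comap f ⟨{false}, isOpen_discrete _⟩ := by rw [h]; trivial
    exact this

theorem open_tcoZ : IsOpen[tcoZ YY Bool] {zero} := by
  refine isOpen_generateFrom_of_mem ⟨univ, ⟨{false}, isOpen_discrete _⟩, zcompact_univ, ?_⟩
  ext f
  rw [mem_singleton_iff, eq_zero_iff]
  constructor
  · intro h
    rintro _ ⟨y, -, rfl⟩
    have : y ∈ Opens.comap f ⟨{false}, isOpen_discrete _⟩ := by rw [h]; trivial
    exact this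
  · intro h
    ext y
    exact ⟨fun _ => trivial, fun _ => h ⟨y, mem_univ _, rfl⟩⟩

theorem cover_aux : ∀ 𝒟 ⊆ OZ YY Bool, sSup 𝒟 = ⊤ → ∃ ℱ ⊆ 𝒟, ℱ.Finite ∧ sSup ℱ = ⊤ := by
  intro 𝒟 h𝒟 htop
  have hcov : (univ : Set YY) ⊆ ⋃ d : 𝒟, (d.1 : Set YY) := by
    intro x _
    have hx : x ∈ sSup 𝒟 := by rw [htop]; trivial
    rw [Opens.mem_sSup] at hx
    obtain ⟨d, hd, hxd⟩ := hx
    exact mem_iUnion.mpr ⟨⟨d, hd⟩, hxd⟩
  obtain ⟨t, ht⟩ := @IsCompact.elim_finite_subcover YY (tauZ YY Bool) _ _ zcompact_univ (fun d : 𝒟 => (d.1 : Set YY))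
    (fun d => isOpen_generateFrom_of_mem ⟨d.1, h𝒟 d.2, rfl⟩) hcov
  refine ⟨Subtype.val '' (t : Set 𝒟), ?_, t.finite_toSet.image _, ?_⟩
  · rintro _ ⟨d, -, rfl⟩; exact d.2
  · ext x
    refine ⟨fun _ => trivial, fun _ => ?_⟩
    obtain ⟨d, hd, hxd⟩ := mem_iUnion₂.mp (ht (mem_univ x))
    exact Opens.mem_sSup.mpr ⟨d.1, ⟨d, hd, rfl⟩, hxd⟩

theorem open_t1Z : IsOpen[t1Z YY Bool] {zero} := by
  refine isOpen_generateFrom_of_mem ⟨{⊤}, ⟨{false}, isOpen_discrete _⟩, ⟨?_, ?_⟩, ?_⟩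
  · intro W hW _ V hWV
    rw [mem_singleton_iff] at hW ⊢
    subst hW
    exact top_le_iff.mp hWV
  · intro 𝒟 h𝒟 htop
    exact cover_aux 𝒟 h𝒟 htop
  · ext f
    rw [mem_singleton_iff, eq_zero_iff]
    rfl

theorem open_t1sZ : IsOpen[t1sZ YY Bool] {zero} := by
  refine isOpen_generateFrom_of_mem ⟨{⊤}, ⟨{false}, isOpen_discrete _⟩, ⟨?_, ?_⟩, ?_⟩
  · intro W hW _ V hWV
    rw [mem_singleton_iff] at hW ⊢
    subst hW
    exact top_le_iff.mp hWV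
  · intro 𝒟 h𝒟 htop
    exact cover_aux 𝒟 h𝒟 htop
  · ext f
    rw [mem_singleton_iff, eq_zero_iff]
    rfl

/-- every member of the strong Scott topology contains the complement of some natural number -/
theorem strongScott_mem {ℍ : Set (Opens YY)} (h : StrongScott YY ℍ) : ∃ (n : ℕ) (W : Opens YY), W ∈ ℍ ∧ Sum.inl n ∉ W := by
  let N : {J : Set ℕ // J ∉ (hyperfilter ℕ : Filter ℕ)} → Opens YY := fun J =>
    ⟨{y | (∃ n ∈ J.1, y = Sum.inl n) ∨ ∃ J', J'.1 ⊆ J.1 ∧ y = Sum.inr J'}, by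
      rw [isOpen_YY]
      rintro J' (⟨n, -, h⟩ | ⟨J'', hJ'', h⟩)
      · exact absurd h (by rintro ⟨⟩)
      · cases Sum.inr_injective h
        refine ⟨fun J''' h3 => Or.inr ⟨J''', h3.trans hJ'', rfl⟩, ?_⟩
        convert finite_empty
        ext n
        simp only [mem_ofPred_eq, mem_empty_iff_false, iff_false, not_and, not_not]
        intro hn
        exact Or.inl ⟨n, hJ'' hn, rfl⟩⟩
  have hsing : ∀ n : ℕ, ({n} : Set ℕ) ∉ (hyperfilter ℕ : Filter ℕ) := fun n =>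
    notMem_hyperfilter_of_finite (finite_singleton n)
  obtain ⟨ℱ, hℱ, hfin, hmem⟩ := h.2 (range N) (by
    ext y
    refine ⟨fun _ => trivial, fun _ => ?_⟩
    rcases y with n | J
    · exact Opens.mem_sSup.mpr ⟨N ⟨{n}, hsing n⟩, ⟨_, rfl⟩, Or.inl ⟨n, rfl, rfl⟩⟩
    · exact Opens.mem_sSup.mpr ⟨N J, ⟨_, rfl⟩, Or.inr ⟨J, Subset.rfl, rfl⟩⟩)
  have key : (⋃ W ∈ ℱ, {n : ℕ | Sum.inl n ∈ W}) ∉ (hyperfilter ℕ : Filter ℕ) := by
    intro hcon
    rw [Ultrafilter.mem_coe, Ultrafilter.finite_biUnion_mem_iff hfin] at hcon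
    obtain ⟨W, hW, hWu⟩ := hcon
    obtain ⟨J, rfl⟩ := hℱ hW
    refine J.2 (Filter.mem_of_superset hWu ?_)
    rintro n (⟨m, hm, hmn⟩ | ⟨J', -, h'⟩)
    · cases Sum.inl_injective hmn; exact hm
    · exact absurd h' (by rintro ⟨⟩)
  obtain ⟨n, hn⟩ : ∃ n, n ∉ (⋃ W ∈ ℱ, {n : ℕ | Sum.inl n ∈ W}) := by
    by_contra hcon
    push Not at hcon
    exact key (Filter.mem_of_superset Filter.univ_mem fun n _ => hcon n)
  refine ⟨n, sSup ℱ, hmem, fun hns => hn ?_⟩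
  obtain ⟨W, hW, hnW⟩ := (Opens.mem_sSup (α := YY)).mp hns
  exact mem_iUnion₂.mpr ⟨W, hW, hnW⟩

/-- the characteristic function of a natural number -/
def chiFun (n : ℕ) : YY → Bool
  | Sum.inl m => decide (m = n)
  | Sum.inr _ => false

/-- the characteristic function of a natural number, as a continuous map -/
def chi (n : ℕ) : C(YY, Bool) := ⟨chiFun n, by
  rw [continuous_discrete_rng]
  intro b
  rw [isOpen_YY]
  intro J hJ
  have hb : b = false := hJ.symm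
  subst hb
  refine ⟨fun J' _ => rfl, (finite_singleton n).subset ?_⟩
  rintro m ⟨-, hm⟩
  by_contra hne
  exact hm (decide_eq_false hne)⟩

theorem not_open_tsIs : ¬ IsOpen[tsIs YY Bool] {zero} := by
  intro h
  have key : ∀ S : Set C(YY, Bool), IsOpen[tsIs YY Bool] S → zero ∈ S → ∃ ℍ, StrongScott YY ℍ ∧
      ∀ f : C(YY, Bool), Opens.comap f ⟨{false}, isOpen_discrete _⟩ ∈ ℍ → f ∈ S := by
    intro S hS
    induction hS with
    | basic S hS =>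
      obtain ⟨ℍ, U, hℍ, rfl⟩ := hS
      intro h0
      refine ⟨ℍ, hℍ, fun f hf => ?_⟩
      by_cases hU : false ∈ U
      · refine hℍ.1 _ hf _ fun y hy => ?_
        have : f y = false := hy
        change f y ∈ U
        rw [this]; exact hU
      · refine hℍ.1 _ h0 _ fun y hy => ?_
        exact absurd hy hU
    | univ =>
      exact fun _ => ⟨univ, ⟨fun _ _ _ _ => mem_univ _, fun _ _ => ⟨∅, empty_subset _, finite_empty, mem_univ _⟩⟩,
        fun _ _ => mem_univ _⟩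
    | inter S T _ _ h1 h2 =>
      intro h0
      obtain ⟨ℍ, hℍ, hf⟩ := h1 h0.1
      obtain ⟨ℍ', hℍ', hf'⟩ := h2 h0.2
      refine ⟨ℍ ∩ ℍ', ⟨fun W hW V hWV => ⟨hℍ.1 W hW.1 V hWV, hℍ'.1 W hW.2 V hWV⟩, fun 𝒟 h𝒟 => ?_⟩,
        fun f hff => ⟨hf f hff.1, hf' f hff.2⟩⟩
      obtain ⟨ℱ, h3, h4, h5⟩ := hℍ.2 𝒟 h𝒟
      obtain ⟨ℱ', h3', h4', h5'⟩ := hℍ'.2 𝒟 h𝒟
      exact ⟨ℱ ∪ ℱ', union_subset h3 h3', h4.union h4', hℍ.1 _ h5 _ (sSup_le_sSup subset_union_left),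
        hℍ'.1 _ h5' _ (sSup_le_sSup subset_union_right)⟩
    | sUnion 𝒮 _ h =>
      rintro ⟨S, hS, h0⟩
      obtain ⟨ℍ, hℍ, hf⟩ := h S hS h0
      exact ⟨ℍ, hℍ, fun f hff => ⟨S, hS, hf f hff⟩⟩
  obtain ⟨ℍ, hℍ, hf⟩ := key _ h rfl
  obtain ⟨n, W, hW, hnW⟩ := strongScott_mem hℍ
  have h1 : chi n ∈ ({zero} : Set C(YY, Bool)) := by
    refine hf (chi n) (hℍ.1 W hW _ ?_)
    rintro (m | J) hy
    · change decide (m = n) = false
      rw [decide_eq_false_iff_not]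
      rintro rfl
      exact hnW hy
    · rfl
  have h2 : ∀ y : YY, chi n y = zero y := fun y => by rw [mem_singleton_iff.mp h1]
  have h3 : decide (n = n) = false := h2 (Sum.inl n)
  simp at h3

/-- **There are spaces `Y`, `Z` such that on `C(Y,Z)` simultaneously `t_co^Z ≠ t_co`, `t_1^Z ≠ t_Is` and
`t_{1,s}^Z ≠ t_sIs`.** -/
theorem result : ∃ (Y Z : Type) (_ : TopologicalSpace Y) (_ : TopologicalSpace Z),
    tcoZ Y Z ≠ tco Y Z ∧ t1Z Y Z ≠ tIs Y Z ∧ t1sZ Y Z ≠ tsIs Y Z := by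
  refine ⟨YY, Bool, inferInstance, inferInstance, fun h => ?_, fun h => ?_, fun h => ?_⟩
  · exact not_open_tsIs (isOpen_tsIs_of_tco (h ▸ open_tcoZ))
  · exact not_open_tsIs (isOpen_tsIs_of_tIs (h ▸ open_t1Z))
  · exact not_open_tsIs (h ▸ open_t1sZ)

end Pool.Agent.Results.MP_43be50_gt.AllThreeDiffer
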